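import Pool.Agent.LAT.StmtsM

/-!
# Squad LAT, row CON: the cone point
-/

set_option autoImplicit false

namespace Pool.Agent.LAT.H70

open Matrix Pool.Agent.LAT

noncomputable section

/-- the slope -/
def ph {m : ℕ} (D : ℕ) (M : Submodule ℤ (Fin m → ℤ)) : ℚ := (D : ℚ) ^ rk M / (gd M : ℚ)

theorem con (hSub : SubStmt) (hPos : PosStmt) : ConStmt := by
  intro m L D hex
  have hg : ∀ M : Submodule ℤ (Fin m → ℤ), (1 : ℚ) ≤ (gd M : ℚ) := by
    intro M
    exact_mod_cast hPos.2.1 m M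
  have hg0 : ∀ M : Submodule ℤ (Fin m → ℤ), (0 : ℚ) < (gd M : ℚ) := fun M =>
    lt_of_lt_of_le zero_lt_one (hg M)
  have hph0 : ∀ M : Submodule ℤ (Fin m → ℤ), 0 ≤ ph D M := by
    intro M
    unfold ph
    exact div_nonneg (pow_nonneg (Nat.cast_nonneg _) _) (hg0 M).le
  have hle : ∀ M : Submodule ℤ (Fin m → ℤ), gd M ≤ (D : ℤ) ^ rk M ↔ 1 ≤ ph D M := by
    intro M
    unfold ph
    rw [le_div_iff₀ (hg0 M), one_mul]
    constructor
    · intro h
      exact_mod_cast h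
    · intro h
      exact_mod_cast h
  have hrk : ∀ M : Submodule ℤ (Fin m → ℤ), rk M ≤ m := by
    intro M
    unfold rk
    have h1 := Submodule.finrank_le M
    rwa [Module.finrank_fin_fun] at h1
  -- finitely many values
  have hfin : (ph D '' {M | PM L D M}).Finite := by
    let K : ℕ := (max D 1) ^ m
    have h1 : ((fun p : ℕ × ℕ => (D : ℚ) ^ p.1 / (p.2 : ℚ)) ''
        ((Finset.range (m + 1) ×ˢ Finset.range (K + 1) : Finset (ℕ × ℕ)) : Set (ℕ × ℕ))).Finite :=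
      (Finset.finite_toSet _).image _
    refine h1.subset ?_
    rintro _ ⟨M, hM, rfl⟩
    have h2 : 1 ≤ gd M := hPos.2.1 m M
    refine ⟨(rk M, (gd M).toNat), ?_, ?_⟩
    · rw [Finset.mem_coe, Finset.mem_product, Finset.mem_range, Finset.mem_range]
      refine ⟨Nat.lt_succ_of_le (hrk M), Nat.lt_succ_of_le ?_⟩
      have h3 : ((gd M).toNat : ℤ) = gd M := Int.toNat_of_nonneg (by omega)
      have h4 : gd M ≤ ((K : ℕ) : ℤ) := by
        refine hM.2.2.trans ?_
        have h5 : D ^ rk M ≤ K :=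
          (Nat.pow_le_pow_left (le_max_left D 1) _).trans
            (Nat.pow_le_pow_right (le_max_right D 1) (hrk M))
        exact_mod_cast h5
      have h6 : ((gd M).toNat : ℤ) ≤ ((K : ℕ) : ℤ) := by rw [h3]; exact h4
      exact_mod_cast h6
    · have h3 : ((gd M).toNat : ℚ) = (gd M : ℚ) := by
        have h4 : ((gd M).toNat : ℤ) = gd M := Int.toNat_of_nonneg (by omega)
        exact_mod_cast h4
      unfold ph
      simp only [h3]
  have hne : (ph D '' {M | PM L D M}).Nonempty := by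
    obtain ⟨M, hM⟩ := hex
    exact ⟨_, M, hM, rfl⟩
  obtain ⟨_, ⟨T, hT, rfl⟩, hmax⟩ := Set.exists_max_image _ id hfin hne
  have hT1 : 1 ≤ ph D T := (hle T).1 hT.2.2
  refine ⟨T, hT, fun M hM => ?_⟩
  have hM1 : 1 ≤ ph D M := (hle M).1 hM.2.2
  obtain ⟨hs, hr⟩ := hSub m M T
  have hprod : ph D M * ph D T ≤ ph D (M ⊓ T) * ph D (M ⊔ T) := by
    have e1 : ph D M * ph D T = (D : ℚ) ^ (rk M + rk T) / ((gd M : ℚ) * gd T) := by
      unfold ph
      rw [div_mul_div_comm, pow_add]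
    have e2 : ph D (M ⊓ T) * ph D (M ⊔ T) =
        (D : ℚ) ^ (rk M + rk T) / ((gd (M ⊓ T) : ℚ) * gd (M ⊔ T)) := by
      unfold ph
      rw [div_mul_div_comm, ← pow_add, hr]
    rw [e1, e2]
    apply div_le_div_of_nonneg_left (pow_nonneg (Nat.cast_nonneg _) _)
    · exact mul_pos (hg0 _) (hg0 _)
    · exact_mod_cast hs
  have hI : ph D (M ⊓ T) ≤ ph D T := by
    by_cases h0 : M ⊓ T = ⊥
    · have h1 : ph D (M ⊓ T) = 1 := by
        unfold ph
        rw [h0, (hPos.2.2 m).1, (hPos.2.2 m).2]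
        simp
      rw [h1]
      exact hT1
    · by_cases h1 : gd (M ⊓ T) ≤ (D : ℤ) ^ rk (M ⊓ T)
      · exact hmax _ ⟨M ⊓ T, ⟨h0, inf_le_left.trans hM.2.1, h1⟩, rfl⟩
      · have h2 : ¬ 1 ≤ ph D (M ⊓ T) := fun h => h1 ((hle _).2 h)
        exact (lt_of_not_ge h2).le.trans hT1
  have hS : 1 ≤ ph D (M ⊔ T) := by
    have h1 : ph D M * ph D T ≤ ph D T * ph D (M ⊔ T) :=
      hprod.trans (mul_le_mul_of_nonneg_right hI (hph0 _))
    have h2 : ph D T * ph D M ≤ ph D T * ph D (M ⊔ T) := by rwa [mul_comm (ph D M)] at h1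
    exact hM1.trans (le_of_mul_le_mul_left h2 (lt_of_lt_of_le zero_lt_one hT1))
  refine ⟨?_, sup_le hM.2.1 hT.2.1, (hle _).2 hS⟩
  intro h
  exact hM.1 (le_bot_iff.1 (h ▸ le_sup_left))

end

end Pool.Agent.LAT.H70
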